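import Pool.Agent.N425.KY2
import Pool.Agent.N425.KR5

/-!
# Clique minors beyond the chromatic number when non-neighbourhoods are `r`-colourable

Let `h(G)` be the largest `m` such that `K_m` is a minor of `G`, and let `r(G)` be the maximum over all
vertices `v` of the chromatic number of the graph induced by the non-neighbours of `v`.  There is a constant
`c` such that, with `r = r(G)`, all finite graphs `G` and all `E` satisfy the following.

1. `h(G) ≥ χ(G) + E`, unless `G` consists of a clique and a `c (r + 1) ^ 36 (E + 1) ^ 4`-colourable graph
   (that is, some clique `K` has `χ(G - K) ≤ c (r + 1) ^ 36 (E + 1) ^ 4`).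
2. `h(G) ≥ χ(G) - c (r + 1) ^ 10`.

With `E = 0` the first part is Hadwiger's conjecture for all graphs with `r(G) ≤ r` that are not a clique
plus a graph of bounded chromatic number.  By the second part `h(G) ≥ (1 - o(1)) χ(G)` for graphs with
`r(G) = o(χ(G) ^ (1 / 10))`.

In terms of the complement `H` of `G` the condition `r(G) ≤ r` says that the neighbourhood of every vertex
of `H` is the union of `r` cliques.  For example `G` may be the complement of a quasi-line graph or of a
line graph (`r = 2`), the complement of a unit ball graph in a fixed finite-dimensional normed space, or an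
induced subgraph of a Kneser graph `K(n, r)`.

An exceptional case is needed: let `K` be a clique with `n - 1` vertices `a_1, …, a_{n-1}` and
`x_1 … x_n` a path, where `x_i` is adjacent to all vertices of `K` but `a_{i-1}` and `a_i`.  Then
`χ(G) = n` and `h(G) ≤ n + 1` (a path has no `K_3` minor), there is no vertex adjacent to all others, and
the non-neighbourhoods are `4`-colourable.

## Outline of the proof

Step 1 (`KY.main_poly`): `h(G) ≥ χ(G) - C(r)` with `C(r) = c (r + 1) ^ 10`, by induction on the number of
vertices; the steps are those of Step 2 with `E = - C(r)`.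
Step 2 (`KY.dicho_poly`).  Put `f = 8 r (r + 1)` and `e = f + 2 + C(r) + E`.  Suppose that no vertex is adjacent
to all others and that the number `n` of vertices is large.

* If all independent sets have at most `8 e (log n + 1)` vertices then every vertex has `O(log n)`
  non-neighbours, and pairing the vertices outside a maximum clique gives a clique minor with more than
  `χ(G) + E` branch sets.
* Otherwise let `I` be a larger independent set, `B` the set of the vertices outside `I` that are not
  adjacent to more than one eighth of `I`, and `Γ` the set of the other vertices.  By double counting and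
  the bound `χ ≤ (r + 1) ω` for graphs of the class, `B` is `f`-colourable.
* If the independent subsets of `Γ` have at most `e` vertices, then every vertex of `Γ` has at most `r e`
  non-neighbours in `Γ`.  Either `h(G[Γ]) ≥ χ(G[Γ]) + E + f + 1` as before, and we are done, or all but a
  bounded number of the vertices of `Γ` are adjacent to all others in `Γ`; they form the clique `K`.
* Otherwise let `X` be an independent subset of `Γ` with `e` vertices.  There are pairwise disjoint sets
  `T x ⊆ I ∩ N(x)`, `x ∈ X`, with at most `log n + 1` vertices such that every vertex of `Γ` has a neighbour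
  in `T x`.  The sets `{x} ∪ T x` and a clique minor of `G[Γ - X]` as in Step 1 form a clique minor with at
  least `χ(Γ - X) - C(r) + e ≥ χ(G) + E` branch sets.
-/

set_option autoImplicit false

namespace Pool.Agent.Results.MP_b47bfb_co.CliqueOrSurplus

open Pool.Agent.N425.KR Pool.Agent.N425.KV Pool.Agent.N425.KX Pool.Agent.N425.KY

/-- `K_m` is a minor of `G`: there are `m` pairwise disjoint vertex sets, each inducing a connected
subgraph, with an edge of `G` between any two of them. -/
def HasCliqueMinor {U : Type} (G : SimpleGraph U) (m : ℕ) : Prop :=
  ∃ B : Fin m → Set U,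
    (∀ i, (G.induce (B i)).Connected) ∧
    (∀ i j, i ≠ j → Disjoint (B i) (B j)) ∧
    (∀ i j, i ≠ j → ∃ u ∈ B i, ∃ w ∈ B j, G.Adj u w)

/-- **Clique minors beyond the chromatic number.**  There is a constant `c` with the following property.
Let `G` be a finite graph such that for every vertex `v` the vertices different from `v` and not adjacent to
`v` induce an `r`-colourable graph.  Then `G` is the union of a clique `K` and a
`c (r + 1) ^ 36 (E + 1) ^ 4`-colourable graph, or `h(G) ≥ χ(G) + E`; and in both cases
`h(G) ≥ χ(G) - c (r + 1) ^ 10`. -/
theorem result : ∃ c : ℕ, ∀ (r E : ℕ) (U : Type) [Finite U] (G : SimpleGraph U),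
    (∀ v, (G.induce {w | w ≠ v ∧ ¬ G.Adj v w}).Colorable r) →
      ((∃ K : Set U, G.IsClique K ∧ (G.induce Kᶜ).Colorable (c * ((r + 1) ^ 36 * (E + 1) ^ 4))) ∨
        ∀ k : ℕ, ¬ G.Colorable k → HasCliqueMinor G (k + 1 + E)) ∧
      ∀ k : ℕ, ¬ G.Colorable (k + c * (r + 1) ^ 10) → HasCliqueMinor G (k + 1) := by
  classical
  obtain ⟨c, hN⟩ := dicho_poly
  refine ⟨c, ?_⟩
  intro r E U _ G h
  have := Fintype.ofFinite U
  have hNC : NC G r := by
    intro v
    apply Pool.Agent.N425.KT.Cov.of_colorable
    have e : {u | u ∈ nn G v} = {w | w ≠ v ∧ ¬ G.Adj v w} := by
      ext u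
      exact mem_nn
    rw [e]
    exact h v
  obtain ⟨h1, 𝓑, hM, hc⟩ := hN r E U G hNC Finset.univ
  refine ⟨?_, ?_⟩
  · rcases h1 with ⟨𝓑, k', hM, hc, hk'⟩ | ⟨K, -, hK, hKN⟩
    · right
      intro k hk
      apply hM.minor
      by_contra hlt
      exact hk (hc.colorable.mono (by omega))
    · refine Or.inl ⟨(K : Set U), ?_, ?_⟩
      · intro a ha b hb hab
        exact hK a ha b hb hab
      · have h1 := Pool.Agent.N425.KT.Cov.colorable_on hKN
        have e : {u | u ∈ Finset.univ \ K} = ((K : Set U))ᶜ := by
          ext u
          simp
        rwa [e] at h1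
  · intro k hk
    apply hM.minor
    by_contra hlt
    exact hk (hc.colorable.mono (by omega))

end Pool.Agent.Results.MP_b47bfb_co.CliqueOrSurplus
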