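import Pool.Agent.N425.KT3

/-!
# Hadwiger's conjecture for disjointness graphs of sets of bounded size is a finite problem

`SmallSets r G`: the vertices `u` of `G` carry sets `s u` of at most `r` points, and two different
vertices are adjacent if and only if their sets are disjoint (repeated sets are allowed).  For example
`G` may be any induced subgraph of a Kneser graph `K(n, r)`, `n` arbitrary.  In terms of the
complement: the edges of the complement of `G` can be covered by cliques such that every vertex is in
at most `r` of them.  So every finite graph occurs for some `r`.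

For fixed `r` we show that a graph of this class whose chromatic number exceeds `k` has a `K_{k+1+E}`
minor (`E` as large as one likes) unless the reason for `χ > k` is an induced subgraph which consists of
a bounded number `N(r, E)` of vertices and of vertices adjacent to all others.  It follows that
Hadwiger's conjecture for the class has only finitely many minimal counterexamples.

## Outline of the proof

A sunflower with kernel `K` is a set of vertices whose sets pairwise have the intersection `K`.  Call
a nonempty set `K` rich if there is a sunflower with kernel `K` and `b (2 r + 1) ^ |K|` members.  Let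
`t` be the number of minimal rich sets, and `F` the set of vertices whose set contains no rich set.
By the sunflower lemma every point is in a bounded number of the minimal rich sets and in a bounded
number of the sets `s u`, `u ∈ F`.  The vertices outside `F` can be coloured with `t` colours.

* If `t` is large there are `2 t` disjoint cliques with `r + 1` vertices outside `F`.  Such a clique is
  joined to every other vertex, because no `s w` can meet `r + 1` pairwise disjoint sets, and
  Hadwiger's conjecture holds up to an additive constant on `F`.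
* If the set `Q` of vertices of `F` with a non-neighbour in `F` is large, then the clique minor of
  `G[F]` exceeds its chromatic number by more than `t`: pair up the vertices outside a maximum clique
  (Hall's theorem) to get a clique minor of order `⌊(n + ω) / 2⌋`, and use a maximum matching of the
  complement to show that `χ ≤ (n + ω) / 2 - c n`.

So `t` and `|Q|` are bounded for every choice of `b`.  Now take two choices `b ≪ b'`.  If there are
two disjoint sets that are rich for `b'`, the two sunflowers give as many branch sets as needed, which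
are joined to each other and to all but at most `r` vertices of the clique `F - Q` for `b`.  If any two
rich sets for `b'` intersect, the vertices outside `F` form an independent set, and a colour-critical
graph of this kind consists of a bounded number of vertices and of vertices adjacent to all others.
-/

set_option autoImplicit false

namespace Pool.Agent.Results.MP_b47bfb_co.FiniteObstructions

open Pool.Agent.N425.KR Pool.Agent.N425.KS Pool.Agent.N425.KT

/-- `K_m` is a minor of `G`: there are `m` pairwise disjoint vertex sets, each inducing a connected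
subgraph, with an edge of `G` between any two of them. -/
def HasCliqueMinor {U : Type} (G : SimpleGraph U) (m : ℕ) : Prop :=
  ∃ B : Fin m → Set U,
    (∀ i, (G.induce (B i)).Connected) ∧
    (∀ i j, i ≠ j → Disjoint (B i) (B j)) ∧
    (∀ i j, i ≠ j → ∃ u ∈ B i, ∃ w ∈ B j, G.Adj u w)

/-- `G` is a disjointness graph of sets of at most `r` points: the vertices `u` of `G` can be given
sets `s u` of at most `r` points such that two different vertices are adjacent if and only if their
sets are disjoint. -/
def SmallSets (r : ℕ) {U : Type} (G : SimpleGraph U) : Prop :=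
  ∃ (P : Type) (s : U → Finset P), (∀ u, (s u).card ≤ r) ∧
    ∀ u w, G.Adj u w ↔ u ≠ w ∧ Disjoint (s u) (s w)

theorem SmallSets.induce {r : ℕ} {U : Type} {G : SimpleGraph U} (h : SmallSets r G) (S : Set U) :
    SmallSets r (G.induce S) := by
  obtain ⟨P, s, h1, h2⟩ := h
  refine ⟨P, fun u => s u.1, fun u => h1 _, ?_⟩
  intro u w
  have h3 : (G.induce S).Adj u w ↔ G.Adj u.1 w.1 := Iff.rfl
  rw [h3, h2, ne_eq, ne_eq, Subtype.ext_iff]

theorem colorable_of_subset {U : Type} {G : SimpleGraph U} {S T : Set U} (h : S ⊆ T) {k : ℕ}
    (hT : (G.induce T).Colorable k) : (G.induce S).Colorable k := by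
  obtain ⟨C⟩ := hT
  exact ⟨SimpleGraph.Coloring.mk (fun u => C ⟨u.1, h u.2⟩)
    (fun {u w} (huw : G.Adj u.1 w.1) => C.valid (v := ⟨u.1, h u.2⟩) (w := ⟨w.1, h w.2⟩) huw)⟩

theorem part1 (r E : ℕ) {U : Type} [Finite U] (G : SimpleGraph U) (h : SmallSets r G) (k : ℕ)
    (hk : ¬ G.Colorable k) :
    HasCliqueMinor G (k + 1 + E) ∨
      ∃ X Y : Set U, X.ncard ≤ NN r E ∧ Disjoint X Y ∧
        (∀ a ∈ Y, ∀ b ∈ X ∪ Y, a ≠ b → G.Adj a b) ∧ ¬ (G.induce (X ∪ Y)).Colorable k := by
  classical
  have := Fintype.ofFinite U
  obtain ⟨P, s, h1, h2⟩ := h
  rcases dichotomy (G := G) (s := s) (r := r) ⟨h1, h2⟩ E k hk with hM | ⟨F, hF, hFc⟩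
  · exact Or.inl hM
  right
  refine ⟨(Qp G F : Set U), (Jp G F : Set U), ?_, ?_, ?_, ?_⟩
  · rw [Set.ncard_coe_finset]
    exact hFc
  · exact Finset.disjoint_coe.2 (disj_Qp_Jp F)
  · intro a ha b hb hab
    rw [← Finset.coe_union, Qp_Jp] at hb
    exact Jp_adj (Finset.mem_coe.1 ha) (Finset.mem_coe.1 hb) hab
  · intro hcol
    rw [← Finset.coe_union, Qp_Jp] at hcol
    exact hF (Cov.of_colorable hcol)

/-- the reduction to finitely many graphs -/
theorem part2 (r : ℕ)
    (hyp : ∀ (U : Type) [Finite U] (G : SimpleGraph U), SmallSets r G → Nat.card U ≤ NN r 0 →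
      ∀ k, ¬ G.Colorable k → HasCliqueMinor G (k + 1))
    {U : Type} [Finite U] (G : SimpleGraph U) (h : SmallSets r G) (k : ℕ)
    (hk : ¬ G.Colorable k) : HasCliqueMinor G (k + 1) := by
  classical
  rcases part1 r 0 G h k hk with h1 | ⟨X, Y, hX, hdis, hY, hXY⟩
  · exact h1
  have := Fintype.ofFinite X
  have := Fintype.ofFinite Y
  have hX1 : Mnr (G.induce X) (Fin (k + 1 - Fintype.card Y)) := by
    by_cases hc : Fintype.card Y ≤ k
    · have h2 : ¬ (G.induce X).Colorable (k - Fintype.card Y) := by
        rintro ⟨C⟩
        apply hXY
        have hc2 : (G.induce (X ∪ Y)).Colorable (Fintype.card (Fin (k - Fintype.card Y) ⊕ Y)) := by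
          refine SimpleGraph.Coloring.colorable (SimpleGraph.Coloring.mk
            (fun u => if hu : u.1 ∈ Y then Sum.inr ⟨u.1, hu⟩ else
              Sum.inl (C ⟨u.1, u.2.resolve_right hu⟩)) ?_)
          intro u w huw heq
          have huw' : G.Adj u.1 w.1 := huw
          by_cases hu : u.1 ∈ Y <;> by_cases hw : w.1 ∈ Y
          · simp only [dif_pos hu, dif_pos hw, Sum.inr.injEq, Subtype.mk.injEq] at heq
            exact huw'.ne heq
          · simp only [dif_pos hu, dif_neg hw, reduceCtorEq] at heq
          · simp only [dif_neg hu, dif_pos hw, reduceCtorEq] at heq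
          · simp only [dif_neg hu, dif_neg hw, Sum.inl.injEq] at heq
            exact C.valid (v := ⟨u.1, u.2.resolve_right hu⟩) (w := ⟨w.1, w.2.resolve_right hw⟩)
              huw' heq
        rw [Fintype.card_sum, Fintype.card_fin] at hc2
        exact hc2.mono (by omega)
      have h3 := hyp X (G.induce X) (h.induce X) (by rw [Nat.card_coe_set_eq]; exact hX) _ h2
      have h4 : k + 1 - Fintype.card Y = k - Fintype.card Y + 1 := by omega
      rw [h4]
      exact h3
    · have h4 : k + 1 - Fintype.card Y = 0 := by omega
      rw [h4]
      exact ⟨fun i => i.elim0, fun i => i.elim0, fun i => i.elim0, fun i => i.elim0⟩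
  have h5 := hX1.add hdis (fun a ha b hb hab => hY a ha b (Or.inr hb) hab)
    (fun a ha b hb => hY a ha b (Or.inl hb) (fun h6 => Set.disjoint_left.1 hdis hb (h6 ▸ ha)))
  have h6 : Fintype.card (Fin (k + 1)) ≤ Fintype.card (Fin (k + 1 - Fintype.card Y) ⊕ Y) := by
    rw [Fintype.card_sum, Fintype.card_fin, Fintype.card_fin]
    omega
  obtain ⟨f⟩ := Function.Embedding.nonempty_of_card_le h6
  exact h5.comap f f.injective

/-- **Hadwiger's conjecture for disjointness graphs of sets of at most `r` points is a finite
problem.**
(1) For all `r` and `E` there is `N` such that for every finite disjointness graph `G` of sets of at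
most `r` points and every `k` with `χ(G) > k`: either `K_{k+1+E}` is a minor of `G`, or `G` has
disjoint vertex sets `X`, `Y` such that `|X| ≤ N`, the vertices of `Y` are adjacent to each other and to
all vertices of `X`, and already `G[X ∪ Y]` is not `k`-colourable.
(2) In particular, for every `r` there is `N` such that Hadwiger's conjecture holds for all such graphs
if it holds for those with at most `N` vertices.
(3) In particular, for every `r` there is `C` such that `h(G) ≥ χ(G) - C` for all such graphs. -/
theorem result (r : ℕ) :
    (∀ E : ℕ, ∃ N : ℕ, ∀ (U : Type) [Finite U] (G : SimpleGraph U), SmallSets r G →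
      ∀ k : ℕ, ¬ G.Colorable k →
        HasCliqueMinor G (k + 1 + E) ∨
          ∃ X Y : Set U, X.ncard ≤ N ∧ Disjoint X Y ∧
            (∀ a ∈ Y, ∀ b ∈ X ∪ Y, a ≠ b → G.Adj a b) ∧ ¬ (G.induce (X ∪ Y)).Colorable k) ∧
    (∃ N : ℕ,
      (∀ (U : Type) [Finite U] (G : SimpleGraph U), SmallSets r G → Nat.card U ≤ N →
        ∀ k : ℕ, ¬ G.Colorable k → HasCliqueMinor G (k + 1)) →
      ∀ (U : Type) [Finite U] (G : SimpleGraph U), SmallSets r G →
        ∀ k : ℕ, ¬ G.Colorable k → HasCliqueMinor G (k + 1)) ∧
    (∃ C : ℕ, ∀ (U : Type) [Finite U] (G : SimpleGraph U), SmallSets r G →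
      ∀ k : ℕ, ¬ G.Colorable (k + C) → HasCliqueMinor G (k + 1)) := by
  refine ⟨fun E => ⟨NN r E, fun U _ G h k hk => part1 r E G h k hk⟩,
    ⟨NN r 0, fun hyp U _ G h k hk => part2 r hyp G h k hk⟩, ⟨CC r, ?_⟩⟩
  intro U _ G h k hk
  classical
  have := Fintype.ofFinite U
  obtain ⟨P, s, h1, h2⟩ := h
  obtain ⟨𝓑, hM, hC⟩ := Pool.Agent.N425.KS.main (G := G) (s := s) (r := r) ⟨h1, h2⟩
  apply hM.minor
  by_contra hlt
  exact hk (hC.colorable.mono (by omega))

end Pool.Agent.Results.MP_b47bfb_co.FiniteObstructions
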