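import Pool.Agent.N684.HI.F

/-!
MP_b47bfb_co: Hadwiger's conjecture, and so Q1, for all clique inflations of `2K₂`-free graphs and
for all graphs obtained by substituting graphs with Hadwiger's bound into the vertices of a
`2K₂`-free graph.
-/

set_option autoImplicit false

namespace Pool.Agent.Results.MP_b47bfb_co.TwoKTwoFree

/-- `K_k` is a minor of `G`: there are `k` pairwise disjoint vertex sets, each inducing a connected
subgraph, any two of them joined by an edge of `G`. -/
def HasCliqueMinor {V : Type} (G : SimpleGraph V) (k : ℕ) : Prop :=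
  ∃ f : Fin k → Set V,
    (∀ i, (G.induce (f i)).Connected) ∧
    (∀ i j, i ≠ j → Disjoint (f i) (f j)) ∧
    (∀ i j, i ≠ j → ∃ u ∈ f i, ∃ v ∈ f j, G.Adj u v)

/-- `K_k` is a minor of `G` with branch sets of at most two vertices: every branch set is a vertex
or (the vertex set of) an edge. -/
def HasSmallCliqueMinor {V : Type} (G : SimpleGraph V) (k : ℕ) : Prop :=
  ∃ f : Fin k → Set V,
    (∀ i, (f i).encard ≤ 2) ∧
    (∀ i, (G.induce (f i)).Connected) ∧
    (∀ i j, i ≠ j → Disjoint (f i) (f j)) ∧
    (∀ i j, i ≠ j → ∃ u ∈ f i, ∃ v ∈ f j, G.Adj u v)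

/-- Hadwiger's conjecture holds for `G`: if `G` is not `j`-colourable then `K_{j+1}` is a minor
of `G`. -/
def Hadwiger {V : Type} (G : SimpleGraph V) : Prop :=
  ∀ j : ℕ, ¬ G.Colorable j → HasCliqueMinor G (j + 1)

/-- Q1 holds for `G`: if `G` is not `j`-colourable then `K_j` is a minor of `G`. -/
def OffByOne {V : Type} (G : SimpleGraph V) : Prop :=
  ∀ j : ℕ, ¬ G.Colorable j → HasCliqueMinor G j

/-- `B` is `2K₂`-free: any two disjoint edges of `B` are joined by an edge of `B`. Equivalently, the
complement of `B` has no induced cycle of length four. -/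
def TwoK2Free {W : Type} (B : SimpleGraph W) : Prop :=
  ∀ a b c d : W, B.Adj a b → B.Adj c d → a ≠ c → a ≠ d → b ≠ c → b ≠ d →
    B.Adj a c ∨ B.Adj a d ∨ B.Adj b c ∨ B.Adj b d

/-- `G` is a clique inflation of an induced subgraph of `B`: there is a map `π` from the vertices
of `G` to those of `B` whose fibres are cliques of `G`, and two vertices of different fibres are
adjacent in `G` exactly when their images are adjacent in `B`. -/
def IsInflation {V W : Type} (G : SimpleGraph V) (B : SimpleGraph W) : Prop :=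
  ∃ π : V → W, ∀ x y, G.Adj x y ↔ x ≠ y ∧ (π x = π y ∨ B.Adj (π x) (π y))

/-- (1) Let `G` be a finite graph obtained from a `2K₂`-free graph `B` by replacing each vertex by
a clique (of any size, possibly empty). If `G` is not `k`-colourable, then `G` has a `K_{k+1}`
minor all of whose branch sets have at most two vertices. For fibres of size at most one, `G` is an
arbitrary finite `2K₂`-free graph.

(2) Let `B` be `2K₂`-free and let `G` be a finite graph obtained from `B` by substituting an
arbitrary graph `G_b` for each vertex `b` of `B`. If Hadwiger's conjecture holds for every `G_b`,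
then it holds for `G`.

(3) If deleting some stable set from a finite graph `G` leaves a clique inflation of a `2K₂`-free
graph, then Q1 holds for `G`. -/
theorem result :
    (∀ (V W : Type) [Fintype V] (G : SimpleGraph V) (B : SimpleGraph W), TwoK2Free B →
      IsInflation G B → ∀ k : ℕ, ¬ G.Colorable k → HasSmallCliqueMinor G (k + 1)) ∧
    (∀ (V W : Type) [Fintype V] (G : SimpleGraph V) (B : SimpleGraph W) (π : V → W),
      TwoK2Free B → (∀ x y, π x ≠ π y → (G.Adj x y ↔ B.Adj (π x) (π y))) →
      (∀ b : W, Hadwiger (G.induce {x | π x = b})) → Hadwiger G) ∧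
    (∀ (V W : Type) [Fintype V] (G : SimpleGraph V) (B : SimpleGraph W) (S : Set V),
      TwoK2Free B → (∀ x ∈ S, ∀ y ∈ S, ¬ G.Adj x y) → IsInflation (G.induce Sᶜ) B →
      OffByOne G) := by
  have hP : ∀ (W : Type) (B : SimpleGraph W), TwoK2Free B → N684.HI.P2 B := by
    intro W B hB a b c d hab hcd
    by_cases h1 : a = c
    · subst h1; exact Or.inr (Or.inl hcd)
    by_cases h2 : a = d
    · subst h2; exact Or.inl hcd.symm
    by_cases h3 : b = c
    · subst h3; exact Or.inl hab
    by_cases h4 : b = d
    · subst h4; exact Or.inr (Or.inl hab)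
    exact hB a b c d hab hcd h1 h2 h3 h4
  have h1 : ∀ (V W : Type) [Fintype V] (G : SimpleGraph V) (B : SimpleGraph W), TwoK2Free B →
      IsInflation G B → ∀ k : ℕ, ¬ G.Colorable k → HasSmallCliqueMinor G (k + 1) := by
    rintro V W _ G B hB ⟨π, hπ⟩ k hk
    refine N684.HI.hadwiger_aux _ V W G (B.comap π) π rfl ⟨?_, ?_, ?_⟩ k hk
    · intro a b c d hab hcd
      exact hP W B hB _ _ _ _ hab hcd
    · intro x y z hxy hxz
      show B.Adj (π y) (π z)
      rw [← hxy]
      exact hxz
    · intro x y
      rw [hπ]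
      rfl
  refine ⟨h1, ?_, ?_⟩
  · intro V W _ G B π hB hG hfib k hk
    exact N684.HI.subst G B (hP W B hB) π hG hfib k hk
  · intro V W _ G B S hB hS hinf j hj
    rcases Nat.eq_zero_or_pos j with h0 | h0
    · subst h0
      exact ⟨fun _ => ∅, fun i => i.elim0, fun i => i.elim0, fun i => i.elim0⟩
    classical
    have h2 : ¬ (G.induce Sᶜ).Colorable (j - 1) := by
      rintro ⟨γ⟩
      apply hj
      refine ⟨SimpleGraph.Coloring.mk (fun x => if h : x ∈ S then (⟨j - 1, by omega⟩ : Fin j) else
        ⟨(γ ⟨x, h⟩).1, by have := (γ ⟨x, h⟩).2; omega⟩) ?_⟩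
      intro x y hxy
      by_cases hx : x ∈ S <;> by_cases hy : y ∈ S
      · exact absurd hxy (hS x hx y hy)
      · simp only [hx, hy, dif_pos, dif_neg, not_false_iff, ne_eq, Fin.mk.injEq]
        have := (γ ⟨y, hy⟩).2
        omega
      · simp only [hx, hy, dif_pos, dif_neg, not_false_iff, ne_eq, Fin.mk.injEq]
        have := (γ ⟨x, hx⟩).2
        omega
      · simp only [hx, hy, dif_neg, not_false_iff, ne_eq, Fin.mk.injEq]
        intro h
        exact γ.valid (v := ⟨x, hx⟩) (w := ⟨y, hy⟩) (by simpa using hxy) (Fin.ext h)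
    obtain ⟨f, _, hc, hd, ha⟩ := h1 _ W (G.induce Sᶜ) B hB hinf (j - 1) h2
    have h3 : TH481.DM.HasCliqueMinor (G.induce Sᶜ) (j - 1 + 1) := ⟨f, hc, hd, ha⟩
    have h4 := TH481.DM.minor_of_minorIn G _ _ j (TH481.DM.minorIn_of_induce G _ _ h3) (by omega)
    exact h4

end Pool.Agent.Results.MP_b47bfb_co.TwoKTwoFree
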