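import Pool.Agent.N425.KU2

/-!
# Hadwiger's conjecture for complements of unit ball graphs of large chromatic number

Let `V` be a finite-dimensional normed space, let `G` be the graph on a finite family of points of `V`
in which two points are adjacent if and only if their distance is larger than `1`, and let `G'` be the
subgraph induced by the vertices which are not adjacent to all others.  So `χ(G)` is the least number
of sets of diameter at most `1` that cover the points.  We show: if `χ(G') > C(V, E)` then
`h(G) ≥ χ(G) + E`, where `h(G)` is the largest `m` such that `K_m` is a minor of `G`; and
`h(G) ≥ χ(G) - C(V, E)` always.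

More generally this holds for all graphs `G` with a proper colouring in which every colour class is
completely joined to all but at most `D` of the colour classes (with `C = C(D, E)`).

## Outline of the proof

Fix a number `b`.  Let `t` be the number of colour classes with at least `b` members (big classes) and
let `F` be the set of the vertices in the other classes.  In `G[F]` every vertex has a bounded number of
non-neighbours.

* If `t` is large there are `2 t` disjoint cliques with `D + 1` vertices in the union of the big
  classes.  Such a clique is joined to every other vertex, and Hadwiger's conjecture holds up to an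
  additive constant for `G[F]`.
* If the set `Q` of the vertices of `F` with a non-neighbour in `F` is large, then the clique minor of
  `G[F]` exceeds its chromatic number by more than `t`: pair up the vertices outside a maximum clique
  (Hall's theorem) to get a clique minor of order `⌊(n + ω) / 2⌋`, and use a maximum matching of the
  complement to show that `χ ≤ (n + ω) / 2 - c n`.

So `t` and `|Q|` are bounded for every choice of `b`.  Now take two choices `b ≪ b'`.  If two big classes
for `b'` are completely joined, pairs of their vertices give as many branch sets as needed, joined to
each other and to all but at most `D` vertices of the clique `F - Q` for `b`.  Otherwise there are at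
most `D` big classes for `b'`, and all but a bounded number of the vertices of the clique `F - Q` for
`b'` are adjacent to all vertices of `G`.
-/

set_option autoImplicit false

namespace Pool.Agent.Results.MP_b47bfb_co.UnitBallComplements

open Pool.Agent.N425.KU

/-- `K_m` is a minor of `G`: there are `m` pairwise disjoint vertex sets, each inducing a connected
subgraph, with an edge of `G` between any two of them. -/
def HasCliqueMinor {U : Type} (G : SimpleGraph U) (m : ℕ) : Prop :=
  ∃ B : Fin m → Set U,
    (∀ i, (G.induce (B i)).Connected) ∧
    (∀ i j, i ≠ j → Disjoint (B i) (B j)) ∧
    (∀ i j, i ≠ j → ∃ u ∈ B i, ∃ w ∈ B j, G.Adj u w)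

/-- **Hadwiger's conjecture for complements of unit ball graphs of large chromatic number.**
(1) For all `D` and `E` there is `C` with the following property.  Let `c` be a proper colouring of a
finite graph `G` such that for every `i` there are at most `D` indices `j` such that some vertex of
colour `i` and some other vertex of colour `j` are not adjacent.  Then the subgraph induced by the
vertices with a non-neighbour is `C`-colourable or `h(G) ≥ χ(G) + E`; and `h(G) ≥ χ(G) - C`.
(2) For every finite-dimensional normed space `V` and every `E` there is `C` such that the same holds
for every graph `G` on a finite family of points of `V` in which two points are adjacent if and only if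
their distance is larger than `1`. -/
theorem result :
    (∀ D E : ℕ, ∃ C : ℕ, ∀ (U I : Type) [Finite U] (G : SimpleGraph U) (c : U → I),
      (∀ u w, c u = c w → ¬ G.Adj u w) →
      (∀ i, {j | ∃ u w, c u = i ∧ c w = j ∧ u ≠ w ∧ ¬ G.Adj u w}.ncard ≤ D) →
      ((G.induce {u | ∃ w, w ≠ u ∧ ¬ G.Adj u w}).Colorable C ∨
          ∀ k : ℕ, ¬ G.Colorable k → HasCliqueMinor G (k + 1 + E)) ∧
        ∀ k : ℕ, ¬ G.Colorable (k + C) → HasCliqueMinor G (k + 1)) ∧
    (∀ (V : Type) [NormedAddCommGroup V] [NormedSpace ℝ V] [FiniteDimensional ℝ V] (E : ℕ),
      ∃ C : ℕ, ∀ (U : Type) [Finite U] (G : SimpleGraph U) (p : U → V),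
      (∀ u w, G.Adj u w ↔ 1 < dist (p u) (p w)) →
      ((G.induce {u | ∃ w, w ≠ u ∧ ¬ G.Adj u w}).Colorable C ∨
          ∀ k : ℕ, ¬ G.Colorable k → HasCliqueMinor G (k + 1 + E)) ∧
        ∀ k : ℕ, ¬ G.Colorable (k + C) → HasCliqueMinor G (k + 1)) := by
  refine ⟨fun D E => ⟨CB D E, fun U I _ G c h1 h2 => concl_cells D E G c h1 h2⟩, ?_⟩
  intro V _ _ _ E
  obtain ⟨D, hD⟩ := concl_space V
  exact ⟨CB D E, fun U _ G p hG => hD E U G p hG⟩

end Pool.Agent.Results.MP_b47bfb_co.UnitBallComplements
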